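import Pool.Agent.PFB.StmtsG

/-!
# MP_e54c4c_gt, squad PFB, row FCE: elementary facts on open faces (helper69)
-/

set_option autoImplicit false

open Matrix Filter Topology

namespace Pool.Agent.PFB.H69

open Pool.Agent.PFS

variable {n : ℕ} {C : Set (V n)}

theorem face_self (h : PCone C) (x : V n) : x ∈ Face C x :=
  ⟨1, one_pos, by rw [one_smul, sub_self]; exact h.zero_cl,
    by rw [one_smul, sub_self]; exact h.zero_cl⟩

theorem face_symm {x y : V n} (hy : y ∈ Face C x) : x ∈ Face C y := by
  obtain ⟨ε, h1, h2, h3⟩ := hy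
  exact ⟨ε, h1, h3, h2⟩

theorem face_sub (h : PCone C) {x y : V n} (hy : y ∈ Face C x) : Face C y ⊆ Face C x := by
  obtain ⟨ε, hε, h2, h3⟩ := hy
  rintro z ⟨δ, hδ, h4, h5⟩
  refine ⟨ε * δ, by positivity, ?_, ?_⟩
  · have h6 := h.cl_add h2 (h.cl_smul h4 hε.le)
    have e : x - ε • y + ε • (y - δ • z) = x - (ε * δ) • z := by
      rw [smul_sub, smul_smul]
      abel
    rwa [e] at h6
  · have h6 := h.cl_add h5 (h.cl_smul h3 hδ.le)
    have e : z - δ • y + δ • (y - ε • x) = z - (ε * δ) • x := by
      rw [smul_sub, smul_smul, mul_comm δ ε]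
      abel
    rwa [e] at h6

theorem face_eq (h : PCone C) {x y : V n} (hy : y ∈ Face C x) : Face C y = Face C x :=
  Set.Subset.antisymm (face_sub h hy) (face_sub h (face_symm hy))

theorem face_cl (h : PCone C) {x y : V n} (hx : x ∈ closure C) (hy : y ∈ Face C x) :
    y ∈ closure C := by
  obtain ⟨ε, hε, h2, h3⟩ := hy
  exact h.cl_of_le (h.cl_smul hx hε.le) h3

theorem span_bd (h : PCone C) {x : V n} (hx : x ∈ closure C) {v : V n}
    (hv : v ∈ Submodule.span ℝ (Face C x)) :
    ∃ M : ℝ, 0 < M ∧ M • x - v ∈ closure C ∧ M • x + v ∈ closure C := by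
  induction hv using Submodule.span_induction with
  | mem y hy =>
    obtain ⟨ε, hε, h2, h3⟩ := hy
    refine ⟨ε⁻¹, inv_pos.mpr hε, ?_, ?_⟩
    · have h4 := h.cl_smul h2 (inv_pos.mpr hε).le
      rwa [smul_sub, smul_smul, inv_mul_cancel₀ hε.ne', one_smul] at h4
    · exact h.cl_add (h.cl_smul hx (inv_pos.mpr hε).le)
        (face_cl h hx ⟨ε, hε, h2, h3⟩)
  | zero =>
    refine ⟨1, one_pos, ?_, ?_⟩
    · rw [one_smul, sub_zero]
      exact hx
    · rw [one_smul, add_zero]
      exact hx
  | add a b _ _ iha ihb =>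
    obtain ⟨M1, h1, h2, h3⟩ := iha
    obtain ⟨M2, h4, h5, h6⟩ := ihb
    refine ⟨M1 + M2, by positivity, ?_, ?_⟩
    · have h7 := h.cl_add h2 h5
      have e : M1 • x - a + (M2 • x - b) = (M1 + M2) • x - (a + b) := by
        rw [add_smul]
        abel
      rwa [e] at h7
    · have h7 := h.cl_add h3 h6
      have e : M1 • x + a + (M2 • x + b) = (M1 + M2) • x + (a + b) := by
        rw [add_smul]
        abel
      rwa [e] at h7
  | smul c a _ iha =>
    obtain ⟨M, h1, h2, h3⟩ := iha
    refine ⟨|c| * M + 1, by positivity, ?_, ?_⟩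
    · rcases le_total 0 c with hc | hc
      · have h7 := h.cl_add (h.cl_smul h2 hc) hx
        have e : c • (M • x - a) + x = (|c| * M + 1) • x - c • a := by
          rw [abs_of_nonneg hc, smul_sub, add_smul, smul_smul, one_smul]
          abel
        rwa [e] at h7
      · have h7 := h.cl_add (h.cl_smul h3 (neg_nonneg.mpr hc)) hx
        have e : (-c) • (M • x + a) + x = (|c| * M + 1) • x - c • a := by
          rw [abs_of_nonpos hc, smul_add, add_smul, smul_smul, one_smul, neg_smul c a]
          abel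
        rwa [e] at h7
    · rcases le_total 0 c with hc | hc
      · have h7 := h.cl_add (h.cl_smul h3 hc) hx
        have e : c • (M • x + a) + x = (|c| * M + 1) • x + c • a := by
          rw [abs_of_nonneg hc, smul_add, add_smul, smul_smul, one_smul]
          abel
        rwa [e] at h7
      · have h7 := h.cl_add (h.cl_smul h2 (neg_nonneg.mpr hc)) hx
        have e : (-c) • (M • x - a) + x = (|c| * M + 1) • x + c • a := by
          rw [abs_of_nonpos hc, smul_sub, add_smul, smul_smul, one_smul, neg_smul c a]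
          abel
        rwa [e] at h7

theorem add_face (h : PCone C) {x : V n} (hx : x ∈ closure C) {y : V n} (hy : y ∈ closure C)
    {M : ℝ} (hM : 0 < M) (hyM : M • x - y ∈ closure C) {δ : ℝ} (hδ : 0 < δ) :
    y + δ • x ∈ Face C x := by
  set ε : ℝ := min δ (1 / (M + δ)) with hε
  have hε0 : 0 < ε := lt_min hδ (by positivity)
  have h1 : ε ≤ δ := min_le_left _ _
  have h2 : ε * (M + δ) ≤ 1 := by
    have h3 : ε ≤ 1 / (M + δ) := min_le_right _ _
    rwa [le_div_iff₀ (by positivity)] at h3
  refine ⟨ε, hε0, ?_, ?_⟩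
  · have h3 := h.cl_add (h.cl_smul hyM hε0.le)
      (h.cl_smul hx (t := 1 - ε * (M + δ)) (by linarith))
    have e : ε • (M • x - y) + (1 - ε * (M + δ)) • x = x - ε • (y + δ • x) := by
      rw [smul_sub, smul_smul, sub_smul, one_smul, smul_add, smul_smul, mul_add, add_smul]
      abel
    rwa [e] at h3
  · have h3 := h.cl_add hy (h.cl_smul hx (t := δ - ε) (by linarith))
    have e : y + (δ - ε) • x = y + δ • x - ε • x := by
      rw [sub_smul]
      abel
    rwa [e] at h3

theorem closure_face (h : PCone C) {x : V n} (hx : x ∈ closure C) (y : V n) :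
    y ∈ closure (Face C x) ↔ (y ∈ closure C ∧ y ∈ Submodule.span ℝ (Face C x)) := by
  constructor
  · intro hy
    constructor
    · exact closure_minimal (fun z hz => face_cl h hx hz) isClosed_closure hy
    · have hc : IsClosed (Submodule.span ℝ (Face C x) : Set (V n)) :=
        Submodule.closed_of_finiteDimensional _
      exact closure_minimal Submodule.subset_span hc hy
  · rintro ⟨hy, hs⟩
    obtain ⟨M, hM, h1, -⟩ := span_bd h hx hs
    have ht : Tendsto (fun m : ℕ => y + (1 / ((m : ℝ) + 1)) • x) atTop (𝓝 (y + (0 : ℝ) • x)) :=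
      tendsto_const_nhds.add (tendsto_one_div_add_atTop_nhds_zero_nat.smul_const x)
    rw [zero_smul, add_zero] at ht
    exact mem_closure_of_tendsto ht (Eventually.of_forall fun m =>
      add_face h hx hy hM h1 (by positivity))

theorem below_face (h : PCone C) {x : V n} (hx : x ∈ closure C) {y : V n}
    (hy : y ∈ closure (Face C x)) {z : V n} (hz : z ∈ closure C) {β : ℝ}
    (hβ : β • y - z ∈ closure C) : z ∈ closure (Face C x) := by
  rw [closure_face h hx] at hy
  obtain ⟨M, hM, h1, h2⟩ := span_bd h hx hy.2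
  -- `β' x - z ≥ 0`
  have h3 : (|β| * M + 1) • x - z ∈ closure C := by
    rcases le_total 0 β with hb | hb
    · have h4 := h.cl_add (h.cl_add (h.cl_smul h1 hb) hβ) hx
      have e : β • (M • x - y) + (β • y - z) + x = (|β| * M + 1) • x - z := by
        rw [abs_of_nonneg hb, smul_sub, add_smul, smul_smul, one_smul]
        abel
      rwa [e] at h4
    · have h4 := h.cl_add (h.cl_add (h.cl_smul h2 (neg_nonneg.mpr hb)) hβ) hx
      have e : (-β) • (M • x + y) + (β • y - z) + x = (|β| * M + 1) • x - z := by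
        rw [abs_of_nonpos hb, smul_add, add_smul, smul_smul, one_smul, neg_smul β y]
        abel
      rwa [e] at h4
  have h5 : z + (1 : ℝ) • x ∈ Face C x := add_face h hx hz (by positivity) h3 one_pos
  rw [closure_face h hx]
  refine ⟨hz, ?_⟩
  have h6 : z = (z + (1 : ℝ) • x) - x := by
    rw [one_smul]
    abel
  rw [h6]
  exact Submodule.sub_mem _ (Submodule.subset_span h5) (Submodule.subset_span (face_self h x))

theorem sact_face {Γ : Subgroup (GL (Fin n) ℝ)} (h : CC C Γ) {g : GL (Fin n) ℝ} (hg : g ∈ Γ)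
    {s : ℝ} (hs : 0 < s) (x y : V n) :
    s • act g y ∈ Face C (s • act g x) ↔ y ∈ Face C x := by
  have key : ∀ (a b : V n) (ε : ℝ), s • act g a - ε • s • act g b ∈ closure C ↔
      a - ε • b ∈ closure C := by
    intro a b ε
    rw [← h.sact_cl_iff hg hs (x := a - ε • b), CC.act_sub, CC.act_smul, smul_sub,
      smul_comm s ε]
  constructor
  · rintro ⟨ε, h1, h2, h3⟩
    exact ⟨ε, h1, (key _ _ _).mp h2, (key _ _ _).mp h3⟩
  · rintro ⟨ε, h1, h2, h3⟩
    exact ⟨ε, h1, (key _ _ _).mpr h2, (key _ _ _).mpr h3⟩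

/-- row FCE -/
theorem fce : FceStmt := by
  intro n C h x hx _
  exact ⟨face_self h x, fun y hy => face_eq h hy, fun Γ hΓ g hg s hs y => sact_face hΓ hg hs x y,
    fun v hv => span_bd h hx hv, closure_face h hx,
    fun y hy z hz β hβ => below_face h hx hy hz hβ⟩

end Pool.Agent.PFB.H69
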